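import Pool.Agent.Q59.FM.Fermat

/-!
# Grothendieck's conjecture in coniveau one for Fermat varieties: moving characters

Let `X` be a product of Fermat varieties of degree `m`, of dimensions `n_j` (`j ∈ κ`) and total
dimension `n`. The block `j` has `n_j + 2` coordinates; `ι` is the set of all coordinates, `β : ι → κ` the
block map, so `|ι| = n + 2 |κ|`. The tensor product of the primitive cohomology groups of the
factors in the middle degrees (in `H^n(X, ℂ)`) is a direct sum of lines `V(a)` indexed by the
characters `a : ι → ℤ/m` with nonzero entries and block sums zero; the line `V(a)` has Hodge type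
`(⟨a⟩ - |κ|, n + |κ| - ⟨a⟩)`, in some order, where `m ⟨a⟩` is the sum of the representatives of the entries
in `0, ..., m - 1`, and the automorphisms of `ℂ` permute the lines by the units modulo `m`. The largest
rational Hodge substructure of level at most `n - 2 c` is the sum of the lines with `HasConiveau β c a`.

A character `a` MOVES in the directions `v_1, ..., v_e` (integral vectors with block sums zero) if for
all rational numbers `θ_k` the twists `a / m + ∑ θ_k v_k` (characters of degree `M m`) have coniveau at
least `c`, whenever their entries are nonzero.

**The theorem.** For fixed `β`, `c ≥ 1`, `e ≥ 1` there is a FINITE list of systems of `e` linearly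
independent directions such that for every `m` all but `C m ^ (e - 1)` characters of degree `m` and of
coniveau at least `c` move along a system of the list. For `e = 1` the number of exceptions is bounded,
and there are no exceptions at all if `m` is not divisible by certain finitely many integers
`≥ 2`.

**Meaning (coniveau one, `e = n - 2`).** If `a` moves in `n - 2` independent directions and `c = 1`, then
`V(a)` vanishes on a dense open subset of `X`. Let `U` be the open part of the product of the spaces
`∑_{β i = j} y_i = 0` where all `y_i ≠ 0`, and `L_a` the local system `∏ y_i ^ (a_i / m)` on it; then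
`V(a) = H^n(U, L_a)` and it is pure. The monomials of the `v_k` define `f : U → T = (ℂ^*) ^ (n - 2)`; its
general fibres are surfaces, complete intersections of general Laurent polynomials. By Khovanskii a
holomorphic two-form of character `a` on the compactified fibres (of the coverings) is given by a point of
`a / m + ℤ ^ ι + ∑ ℝ v_k` with positive coordinates and block sums one (other forms come from the
fibres of a subset of the blocks and form constituents which are constant along a subtorus of `T` up to a
character; those do not contribute to the pure line `V(a)`). Such a point is a twist of `a` with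
`⟨·⟩ = |κ|`, of coniveau zero; so there is none, and also for the conjugates of `a`. Hence the part of the
weight two cohomology of the fibres which contributes to `V(a)` has type `(1,1)`, has finite
monodromy, and is spanned by divisors (Lefschetz) after a finite base change; since `V(a)` is pure of weight `n`
it comes from this part (`H^n(U', L_a) = H^(n-2)(T', R^2 f_* L_a)` over an open affine `T'`, and the
higher weights of `R^2 f_* L_a` contribute only weights greater than `n`), and it vanishes outside
these divisors.

**The question (`i = 3`).** Let `Y` be a smooth projective variety of dimension at least `3` with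
`h^{3,0}(Y) = 0`, and `X ⇢ Y` a dominant rational map from a product `X` of Fermat varieties of degree `m`
(any number of factors, any dimensions). By the Künneth formula `H^3(X)` is the sum of classes which
contain a divisor class as a factor and of the spaces above for the products of factors of total dimension `3`
(block sizes `5`, or `4` and `3`, or `3`, `3` and `3`). If `m` is divisible by none of the finitely many
integers of the theorem (for these three `β`, `c = 1`, `e = 1`), then all lines of coniveau at
least one in `H^3(X)` vanish on a dense open subset. The image of `H^3(Y)` in `H^3` of a resolution `X'` of the map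
has no part of type `(3,0)`, so it consists of such lines and of classes supported on the exceptional
divisors; by restriction to a general multisection of `X' → Y` and the trace `H^3(Y)` vanishes on a dense
open subset of `Y`. So Q1 holds for `i = 3` and all these `Y`.

For all `n`: the answer for `X` is yes (the lines of coniveau at least one of `H^n(X)` vanish on a dense open
set) up to `O(m ^ (n - 3))` lines, while for the Fermat variety the Hodge substructure has dimension about
`(2 ^ (n + 1) - n - 3) m ^ n`.
-/

namespace Pool.Agent.Results.MP_1c689d_ag.FermatMovingCharacters

open Finset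

variable {ι κ : Type} [Fintype ι] [Fintype κ] [DecidableEq κ] {m : ℕ}

/-- The characters of coniveau at least `c`: the entries are nonzero, the block sums are zero, and all
conjugates satisfy `|κ| + c ≤ ⟨t a⟩` and `⟨t a⟩ + |κ| + c ≤ |ι|`, where `m ⟨a⟩` is the sum of the
representatives of the entries between `0` and `m - 1`. -/
def HasConiveau (β : ι → κ) (c : ℕ) (a : ι → ZMod m) : Prop :=
  (∀ i, a i ≠ 0) ∧ (∀ j, ∑ i with β i = j, a i = 0) ∧ ∀ t : (ZMod m)ˣ,
    (Fintype.card κ + c) * m ≤ ∑ i, ((t : ZMod m) * a i).val ∧
      (∑ i, ((t : ZMod m) * a i).val) + (Fintype.card κ + c) * m ≤ Fintype.card ι * m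

/-- The twist of a character `a` of degree `m`: the character `b` of degree `M m` with
`b / (M m) = a / m + ∑ j, (k j / (M m)) v j`. -/
def twist {e : ℕ} (a : ι → ZMod m) (v : Fin e → ι → ℤ) (M : ℕ) (k : Fin e → ℤ) : ι → ZMod (M * m) :=
  fun i => ((M * (a i).val + ∑ j, k j * v j i : ℤ) : ZMod (M * m))

/-- The character `a` moves in the directions `v`: all twists with nonzero entries have coniveau at
least `c`. -/
def Moves {e : ℕ} (β : ι → κ) (c : ℕ) (a : ι → ZMod m) (v : Fin e → ι → ℤ) : Prop :=
  ∀ M : ℕ, 0 < M → ∀ k : Fin e → ℤ, (∀ i, twist a v M k i ≠ 0) → HasConiveau β c (twist a v M k)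

/-- **All but few characters of coniveau at least `c` move in `e` independent directions.** -/
theorem result (β : ι → κ) (c e : ℕ) (hc : 1 ≤ c) (he : 1 ≤ e) :
    ∃ V : Finset (Fin e → ι → ℤ),
      (∀ v ∈ V, LinearIndependent ℤ v ∧ ∀ j k, ∑ i with β i = k, v j i = 0) ∧
      (∃ C : ℕ, ∀ m : ℕ, 0 < m →
        Nat.card {a : ι → ZMod m // HasConiveau β c a ∧ ¬ ∃ v ∈ V, Moves β c a v} ≤
          C * m ^ (e - 1)) ∧
      (e = 1 → ∃ D : Finset ℕ, (∀ b ∈ D, 2 ≤ b) ∧ ∀ m : ℕ, 0 < m → (∀ b ∈ D, ¬ b ∣ m) →
        ∀ a : ι → ZMod m, HasConiveau β c a → ∃ v ∈ V, Moves β c a v) :=
  Pool.Agent.Q59.FM.main β hc he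

end Pool.Agent.Results.MP_1c689d_ag.FermatMovingCharacters
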