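import Pool.Agent.Q187.CV.Main

/-!
# The coniveau one case of the generalised Hodge conjecture: rationally connected fibrations and
minimal counterexamples

The assertion of the question (in all degrees) passes from `B` to every `Y` with a rational map to
`B` whose general fibre is rationally connected. A counterexample of minimal dimension may be taken
non-uniruled, of dimension at least three, and not dominating a product of two positive dimensional
varieties with rationally connected fibres.
-/

set_option autoImplicit false

namespace Pool.Agent.Results.MP_1c689d_ag.FibrationsMinimalCounterexample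

open Pool.Agent.Q187.CV

theorem result (D : Data) (hlow : LowDegrees D) :
    (∀ Y B : D.Var, Nonempty (Fibration D Y B) → D.Holds B → D.Holds Y) ∧
    ∀ NonUni : D.Var → Prop, HasMRC D NonUni → (¬ ∀ Y, D.Holds Y) →
      ∃ Y, ¬ D.Holds Y ∧ NonUni Y ∧ 3 ≤ D.dim Y ∧ (∀ Z, D.dim Z < D.dim Y → D.Holds Z) ∧
        ∀ P, Nonempty (Fibration D Y P) → ∀ Z₁ Z₂, Nonempty (Product D Z₁ Z₂ P) →
          D.dim Z₁ = 0 ∨ D.dim Z₂ = 0 :=
  ⟨fun Y B ⟨f⟩ => holds_fibration f, fun N hN h => minimal hlow hN h⟩

end Pool.Agent.Results.MP_1c689d_ag.FibrationsMinimalCounterexample
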