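import Mathlib
import Pool.Agent.TH131.GHC.Final
import Pool.Agent.Q34.SD.G11
import Pool.Agent.Q34.SD.G12

/-!
# Grothendieck's question on coniveau one for the varieties dominated by products of abelian
# varieties with periods in a number field and an arbitrary variety

Let `Y` be a smooth projective variety such that each sub-Hodge structure of `H^e(Y, ℚ)` of level at
most `e - 2` vanishes on a dense open subset (for example any curve, any surface, or any variety for
which the generalized Hodge conjecture is known in coniveau one). Let `A` be a product of abelian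
varieties `ℂ ^ g / (ℤ ^ g + Z ℤ ^ g)`, where the entries of `Z` are in a number field `K` of degree at
least five over `ℚ` (which may be different for the different factors) and `Z` is outside of a
hypersurface in the rational vector space of the symmetric matrices over `K`. Then the same is true
for `A × Y`: each sub-Hodge structure of `H^i(A × Y, ℚ)` of level at most `i - 2` vanishes on a
dense open subset, the complement of divisors on `A` and of a closed subset of `Y`.

It follows that Grothendieck's question has a positive answer, in all degrees `i`, for all smooth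
projective varieties `X` with a dominant rational map `A × Y ⇢ X`, for example for the resolutions of
all quotients `(A × Y) / G` by finite groups and of all images of `A × Y`: the pull-back of `H^i(X, ℚ)`
is a sub-Hodge structure of `H^i(A × Y, ℚ)` (up to classes supported on exceptional divisors), its
level is at most `i - 2` if `h^{i,0}(X) = 0`, and a class on `X` whose pull-back under a dominant map
vanishes on a dense open subset vanishes itself on a dense open subset (take a multisection and the
trace).
-/

namespace Pool.Agent.Results.MP_1c689d_ag.NumberFieldPeriodsImages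

open Matrix Module Filter Topology Pool.Agent.H204R3.CM Pool.Agent.H194R3.CM
  Pool.Agent.W437.HC Pool.Agent.W437.HD Pool.Agent.W437.HP Pool.Agent.TH131.GHC
  Pool.Agent.W546.GHC

/-- The symmetric matrix over the number field `K` with the rational coordinates `t` for the basis
`θ` of `K`: the entry with the indices `a`, `b` is the sum of the products
`t ({a, b}, j) * θ j`. -/
noncomputable def matrixOf {K : IntermediateField ℚ ℂ} {n : ℕ} (θ : Basis (Fin n) ℚ K) {g : ℕ}
    (t : Sym2 (Fin g) × Fin n → ℚ) : Matrix (Fin g) (Fin g) ℂ :=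
  Matrix.of fun a b => ∑ j, (t (s(a, b), j) : ℂ) * (θ j : ℂ)

/-- The property `p` holds for all period matrices `Z` (the symmetric matrices with positive definite
imaginary part) over the number field `K` of size `g` outside of a hypersurface: in terms of the
coordinates for each basis of `K` there is a nonzero polynomial `P` such that `p` holds for all period
matrices at which `P` is not zero. -/
def AlmostAll (K : IntermediateField ℚ ℂ) (g : ℕ) (p : Matrix (Fin g) (Fin g) ℂ → Prop) : Prop :=
  ∀ (n : ℕ) (θ : Basis (Fin n) ℚ K), ∃ P : MvPolynomial (Sym2 (Fin g) × Fin n) ℂ, P ≠ 0 ∧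
    ∀ t : Sym2 (Fin g) × Fin n → ℚ, ((matrixOf θ t).map Complex.im).PosDef →
      MvPolynomial.eval (fun i => (t i : ℂ)) P ≠ 0 → p (matrixOf θ t)

/-- Coniveau one for the variety `Y` with the cohomology `V`: each sub-Hodge structure of `H^e(Y, ℚ)`
of level at most `e - 2`, that is without a part of type `(e, 0)`, is contained in `N`. Here `N` is the
space of the classes which vanish on a dense open subset of `Y`. -/
def ConiveauOne {v : ℕ} (V : Coh v) (N : Submodule ℚ (Fin v → ℚ)) : Prop :=
  ∀ (e : ℕ) (F : Submodule ℚ (Fin v → ℚ)),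
    (∀ x ∈ F, ∀ b, x b ≠ 0 → V.dg b = e) → SubZ V ((e : ℤ) - 2) F → F ≤ N

section

variable {W T : Type*} [AddCommGroup W] [Module ℚ W] [AddCommGroup T] [Module ℂ T]

/-- The span of the products of one or more divisor classes on the torus `A`, a class on `A` and a
class on `Y`, and of the products of a class on `A` and a class in `N` on `Y`. If `N` is the space of
the classes which vanish on a dense open subset of `Y` then these classes vanish on a dense open
subset of `A × Y`. -/
def vanishing (per : W →+ T) {v : ℕ} (N : Submodule ℚ (Fin v → ℚ)) : Submodule ℚ (HAZ W v) :=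
  Submodule.span ℚ
    ({t | ∃ (k s : ℕ) (f : W [⋀^Fin k]→ₗ[ℚ] ℚ) (x : Fin v → ℚ),
        1 ≤ s ∧ f ∈ divisorProducts per k s ∧ t = cross f x} ∪
      {t | ∃ (k : ℕ) (f : W [⋀^Fin k]→ₗ[ℚ] ℚ) (x : Fin v → ℚ), x ∈ N ∧ t = cross f x})

/-- Coniveau one for `A × Y`: for all `i` each sub-Hodge structure of `H^i(A × Y, ℚ)` of level at most
`i - 2` is contained in the space `vanishing`. -/
def ProductConiveauOne (per : W →+ T) {v : ℕ} (V : Coh v) (N : Submodule ℚ (Fin v → ℚ)) : Prop :=
  ∀ (i : ℕ) (S : Submodule ℚ (HAZ W v)), SubHSIn per V i 1 S → S ≤ vanishing per N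

end

/-- All matrices of the family are period matrices (symmetric with positive definite imaginary part)
in the sets `G`. -/
def PeriodsIn (G : ∀ g : ℕ, Set (Matrix (Fin g) (Fin g) ℂ)) {r : ℕ} {d : Fin r → ℕ}
    (Z : ∀ i, Matrix (Fin (d i)) (Fin (d i)) ℂ) : Prop :=
  ∀ i, (Z i).transpose = Z i ∧ ((Z i).map Complex.im).PosDef ∧ Z i ∈ G (d i)

/-- Let `V` be the cohomology of a smooth projective variety `Y`. There are sets `G g` of complex
matrices of size `g` with the following properties.

1. For all number fields `K` of degree at least five and all `g > 0` almost all period matrices over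
   `K` of size `g` are in `G g`.
2. Let `Z i` be a finite family of period matrices in the sets `G (d i)`. Suppose that each sub-Hodge
   structure of `H^e(Y, ℚ)` of level at most `e - 2` is contained in `N`, for all `e`. Then for all
   products `A` of the abelian varieties `ℂ ^ d / (ℤ ^ d + Z ℤ ^ d)`, `Z` one of the `Z i`, and for all
   `i` each sub-Hodge structure of `H^i(A × Y, ℚ)` of level at most `i - 2` is contained in the span of
   the products of a divisor class on `A` and a class on `A × Y` and of the products of a class on `A`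
   and a class in `N`. -/
theorem result {v : ℕ} (V : Coh v) :
    ∃ G : ∀ g : ℕ, Set (Matrix (Fin g) (Fin g) ℂ),
      (∀ (K : IntermediateField ℚ ℂ) [FiniteDimensional ℚ K], 5 ≤ finrank ℚ K →
        ∀ g : ℕ, 0 < g → AlmostAll K g fun Z => Z ∈ G g) ∧
      ∀ {r : ℕ} {d : Fin r → ℕ} (Z : ∀ i, Matrix (Fin (d i)) (Fin (d i)) ℂ),
        PeriodsIn G Z → ∀ N : Submodule ℚ (Fin v → ℚ), ConiveauOne V N →
        ∀ {m : ℕ} (c : Fin m → Fin r), ProductConiveauOne (perFam Z c) V N := by
  refine ⟨fun g => {Z | Pool.Agent.Q34.SD.LG Z = Pool.Agent.Q34.SD.spC g ∧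
    ∃ σ₁ σ₂ : ℂ ≃+* ℂ, Pool.Agent.Q34.SD.pq (Pool.Agent.Q34.SD.mV V.z σ₁ σ₂)
      (Pool.Agent.Q34.SD.Ds Z σ₁) (Pool.Agent.Q34.SD.Ds Z σ₂) ≠ 0}, ?_, ?_⟩
  · intro K _ h5 g hg n θ
    obtain ⟨P, hP, h⟩ := Pool.Agent.Q34.SD.generic_indep K θ g h5 hg V.z
    exact ⟨P, hP, fun t hpos ht => h t ht hpos⟩
  · intro r d Z hZ N hN m c i S hS
    have hp : ∀ i, Pool.Agent.W437.HR.HasPcs (DZ (Z i)) := fun i =>
      Pool.Agent.Q34.SD.hasPcs_of_sp (hZ i).1 (hZ i).2.1 (hZ i).2.2.1
    have hs : ∀ i, IsSimpleAV (Z i) := fun i =>
      Pool.Agent.Q34.SD.simple_of_sp (hZ i).1 (hZ i).2.1 (hZ i).2.2.1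
    -- the filtration with `N 0 = ⊤` and `N j = N` for `j > 0`
    have hN' : GHCZ V (fun j => if j = 0 then ⊤ else N) := by
      refine ⟨by simp, fun e j F hF hS' => ?_⟩
      by_cases hj : j = 0
      · simp [hj]
      · simp only [hj, if_false]
        refine hN e F hF fun x hx => ?_
        refine Submodule.span_mono ?_ (hS' x hx)
        rintro y ⟨hy, n, hn, hny⟩
        refine ⟨hy, n, ?_, hny⟩
        have : (1 : ℤ) ≤ j := by exact_mod_cast Nat.one_le_iff_ne_zero.2 hj
        omega
    have hmain : GHCProduct (perFam Z c) V (fun j => if j = 0 then ⊤ else N) :=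
      ghc_rel Z (fun i => (hZ i).1) (fun i => (hZ i).2.1) hp c V
        (Pool.Agent.Q34.SD.indep_of_spectrum (fun i => (hZ i).1) (fun i => (hZ i).2.1) hp hs V
          fun i => (hZ i).2.2.2) hN'
    refine (hmain i 1 S hS).trans (Submodule.span_le.2 ?_)
    rintro t ⟨k, s, j', f, x, hf, hx, hj, rfl⟩
    by_cases hj' : j' = 0
    · exact Submodule.subset_span (Or.inl ⟨k, s, f, x, by omega, hf, rfl⟩)
    · exact Submodule.subset_span (Or.inr ⟨k, f, x, by simpa [hj'] using hx, rfl⟩)

end Pool.Agent.Results.MP_1c689d_ag.NumberFieldPeriodsImages
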