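import Mathlib
import Pool.Agent.Q34.RQ.Cls

/-!
# Grothendieck's question on coniveau one for quotients by finite groups of real type

The definitions are in `Pool/Agent/Q34/RQ/Defs.lean`, `Pool/Agent/Q34/RQ/Short.lean` and
`Pool/Agent/Q34/RQ/Cls.lean`.

* `AbVar V` : a complex abelian variety `A` up to isogeny, given by `V = H^1(A, ℚ)`, the subspace
  `hol = H^0(A, Ω^1)` of `H^1(A, ℂ)` and a polarization. `H^i(A, ℚ)` is `⋀^i V`.
* `A.Acts ρ` : the group `G` acts on `A`. `A.RealType ρ` : the action is of real type, that is
  all eigenvalues of `∑ g ^ 2` on `H^0(A, Ω^1)` are positive; by Frobenius and Schur this means that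
  all irreducible constituents of the representation `H^0(A, Ω^1)` are real.
* `A.IsDiv d` : `d` is a rational class of type `(1,1)`, that is (Lefschetz) a rational
  combination of classes of divisors. `A.divIdealQ`, `A.divIdealC` : the ideal of `H^*(A, ℚ)`, of
  `H^*(A, ℂ)` generated by these classes; its elements vanish on a dense open subset (the
  complement of divisors).
* `GVar G` : the cohomology `H j = H^j(Y, ℂ)` of a smooth projective variety `Y` with an action of
  `G`, with the subspaces `hol j = H^0(Y, Ω^j)` and `N j`, the classes which vanish on a dense open
  subset. `Y.product Z` : the product with the diagonal action. `A.gvar ρ` : the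
  abelian variety `A`, with `N j` the part of `A.divIdealC` in degree `j`.
* `Built Y` : `Y` is in the class generated under products by the abelian varieties with an action of
  real type, and the varieties which are `Good` in each degree.
* `Y.Controlled` : in each degree `j` there is a stable subspace `N'` of `N j` such that each class
  outside of `N'` is mapped to a nonzero holomorphic form by a `G`-equivariant linear map
  `H^j(Y, ℂ) → H^0(Y, Ω^j)` which vanishes on `N'`.
-/

namespace Pool.Agent.Results.MP_1c689d_ag.RealQuotients

open Pool.Agent.Q34.RQ

universe u v

/-- Let the finite group `G` act on a variety `Y` of the class `Built`. Then Grothendieck's question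
has a positive answer for the quotient `Y / G` in all degrees `i`: if there is no nonzero invariant
holomorphic `i`-form on `Y` then all invariant classes of degree `i` vanish on a dense open subset.
For abelian varieties with an action of real type the invariant rational classes are even in the ideal
of `H^*(A, ℚ)` generated by the classes of divisors. -/
theorem result (G : Type u) [Group G] [Fintype G] :
    (∀ Y : GVar.{v} G, Built Y → Y.Controlled ∧ ∀ i, Y.NoInvariantForm i →
      ∀ x, (∀ g, Y.act i g x = x) → x ∈ Y.N i) ∧
    (∀ (V : Type v) [AddCommGroup V] [Module ℚ V] [FiniteDimensional ℚ V] (A : AbVar V)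
      (ρ : Representation ℚ G V), A.Acts ρ → A.RealType ρ →
      ∀ i, (A.gvar ρ).NoInvariantForm i → ∀ x, InvariantClass ρ i x → x ∈ A.divIdealQ) :=
  ⟨fun Y hY => ⟨controlled_built Y hY, fun i h0 x hx =>
      quotient_of_controlled Y (controlled_built Y hY) i h0 x hx⟩,
    fun _ _ _ _ A ρ hA hR i h0 x hx => rational A ρ hA hR i h0 x hx⟩

end Pool.Agent.Results.MP_1c689d_ag.RealQuotients
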